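import Mathlib

/-! Leonard triples for which no q-commutator relation of the kind asked for holds. -/

namespace Pool.Agent.Results.MP_4722b0_al.RacahTriple

open Matrix

universe u v

/-- A square matrix is irreducible tridiagonal: entries off the three central diagonals vanish and
all entries directly above and directly below the main diagonal are nonzero. -/
def IsIrredTridiagonal {K : Type u} [Field K] {n : ℕ} (M : Matrix (Fin n) (Fin n) K) : Prop :=
  (∀ i j : Fin n, (i : ℕ) + 1 < j ∨ (j : ℕ) + 1 < i → M i j = 0) ∧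
    ∀ i j : Fin n, (i : ℕ) + 1 = j → M i j ≠ 0 ∧ M j i ≠ 0

/-- There is a basis in which `X` is diagonal while `Y` and `Z` are irreducible tridiagonal. -/
def HasLeonardBasis {K : Type u} [Field K] {V : Type v} [AddCommGroup V] [Module K V]
    (X Y Z : V →ₗ[K] V) : Prop :=
  ∃ (n : ℕ) (b : Module.Basis (Fin n) K V), (LinearMap.toMatrix b b X).IsDiag ∧
    IsIrredTridiagonal (LinearMap.toMatrix b b Y) ∧ IsIrredTridiagonal (LinearMap.toMatrix b b Z)

/-- `A, B, C` is a Leonard triple on `V`. -/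
def IsLeonardTriple {K : Type u} [Field K] {V : Type v} [AddCommGroup V] [Module K V]
    (A B C : V →ₗ[K] V) : Prop :=
  HasLeonardBasis A B C ∧ HasLeonardBasis B A C ∧ HasLeonardBasis C A B

lemma exists_basis {K : Type u} [Field K] {n : ℕ} (P Q : Matrix (Fin n) (Fin n) K)
    (h : P * Q = 1) : ∃ b : Module.Basis (Fin n) K (Fin n → K), ∀ M : Matrix (Fin n) (Fin n) K,
      LinearMap.toMatrix b b (Matrix.toLin' M) = Q * M * P := by
  have h' : Q * P = 1 := mul_eq_one_comm.mp h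
  let e : (Fin n → K) ≃ₗ[K] (Fin n → K) := Matrix.toLin'OfInv h' h
  have he : ∀ v, e v = P *ᵥ v := fun v => rfl
  have he' : ∀ v, e.symm v = Q *ᵥ v := fun v => rfl
  refine ⟨(Pi.basisFun K (Fin n)).map e, fun M => ?_⟩
  rw [← LinearMap.toMatrix'_toLin' (R := K) (Q * M * P)]
  ext i j
  rw [LinearMap.toMatrix_apply, LinearMap.toMatrix'_apply]
  simp [he, he', Matrix.mul_assoc]

/-- Scaled integer data give a Leonard triple. -/
lemma leonard_of_int {K : Type u} [Field K] {n : ℕ} (A B C P Q : Matrix (Fin n) (Fin n) ℤ) (N : ℤ)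
    (hN : (N : K) ≠ 0) (hPQ : P * Q = N • (1 : Matrix (Fin n) (Fin n) ℤ))
    (hQP : Q * P = N • (1 : Matrix (Fin n) (Fin n) ℤ))
    (hA : ∀ i j, i ≠ j → A i j = 0)
    (hB : IsIrredTridiagonal (B.map (Int.cast : ℤ → K)))
    (hC : IsIrredTridiagonal (C.map (Int.cast : ℤ → K)))
    (h1 : Q * B * P = N • A) (h2 : Q * C * P = N • B) (h3 : Q * A * P = N • C)
    (h4 : P * C * Q = N • A) (h5 : P * A * Q = N • B) (h6 : P * B * Q = N • C) :
    IsLeonardTriple (Matrix.toLin' (A.map (Int.cast : ℤ → K)))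
      (Matrix.toLin' (B.map (Int.cast : ℤ → K))) (Matrix.toLin' (C.map (Int.cast : ℤ → K))) := by
  have hmap : ∀ X Y Z W : Matrix (Fin n) (Fin n) ℤ, X * Y * Z = N • W →
      ((N : K)⁻¹ • X.map (Int.cast : ℤ → K)) * Y.map (Int.cast : ℤ → K)
        * Z.map (Int.cast : ℤ → K) = W.map (Int.cast : ℤ → K) := by
    intro X Y Z W h
    have h' := congrArg (fun M : Matrix (Fin n) (Fin n) ℤ => M.map (Int.castRingHom K)) h
    simp only [Matrix.map_mul] at h'
    rw [Matrix.smul_mul, Matrix.smul_mul]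
    have h'' : (N • W).map (Int.castRingHom K) = (N : K) • W.map (Int.castRingHom K) := by
      ext i j
      rw [Matrix.map_apply, Matrix.smul_apply, Matrix.smul_apply, Matrix.map_apply, smul_eq_mul,
        smul_eq_mul]
      simp
    rw [h''] at h'
    have : (X.map (Int.cast : ℤ → K)) * Y.map (Int.cast : ℤ → K) * Z.map (Int.cast : ℤ → K)
      = (N : K) • W.map (Int.cast : ℤ → K) := h'
    rw [this, smul_smul, inv_mul_cancel₀ hN, one_smul]
  have hinv : ∀ X Y : Matrix (Fin n) (Fin n) ℤ, X * Y = N • (1 : Matrix (Fin n) (Fin n) ℤ) →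
      X.map (Int.cast : ℤ → K) * ((N : K)⁻¹ • Y.map (Int.cast : ℤ → K)) = 1 := by
    intro X Y h
    have h' := congrArg (fun M : Matrix (Fin n) (Fin n) ℤ => M.map (Int.castRingHom K)) h
    simp only [Matrix.map_mul] at h'
    have h'' : (N • (1 : Matrix (Fin n) (Fin n) ℤ)).map (Int.castRingHom K) = (N : K) • 1 := by
      ext i j
      rw [Matrix.map_apply, Matrix.smul_apply, Matrix.smul_apply, smul_eq_mul, smul_eq_mul,
        Matrix.one_apply, Matrix.one_apply]
      by_cases hij : i = j <;> simp [hij]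
    rw [h''] at h'
    have : X.map (Int.cast : ℤ → K) * Y.map (Int.cast : ℤ → K) = (N : K) • 1 := h'
    rw [Matrix.mul_smul, this, smul_smul, inv_mul_cancel₀ hN, one_smul]
  have hAd : (A.map (Int.cast : ℤ → K)).IsDiag := by
    intro i j hij
    simp [hA i j hij]
  refine ⟨?_, ?_, ?_⟩
  · obtain ⟨b, hb⟩ := exists_basis (1 : Matrix (Fin n) (Fin n) K) 1 (by simp)
    refine ⟨n, b, ?_, ?_, ?_⟩
    · rw [hb]; simpa using hAd
    · rw [hb]; simpa using hB
    · rw [hb]; simpa using hC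
  · obtain ⟨b, hb⟩ := exists_basis _ _ (hinv P Q hPQ)
    refine ⟨n, b, ?_, ?_, ?_⟩
    · rw [hb, hmap _ _ _ _ h1]; exact hAd
    · rw [hb, hmap _ _ _ _ h3]; exact hC
    · rw [hb, hmap _ _ _ _ h2]; exact hB
  · obtain ⟨b, hb⟩ := exists_basis _ _ (hinv Q P hQP)
    refine ⟨n, b, ?_, ?_, ?_⟩
    · rw [hb, hmap _ _ _ _ h4]; exact hAd
    · rw [hb, hmap _ _ _ _ h5]; exact hB
    · rw [hb, hmap _ _ _ _ h6]; exact hC

/-- The scalars `f k` witness that `X` lies outside the span. -/
lemma notMem_of_functional {K : Type u} [Field K] {V : Type v} [AddCommGroup V] [Module K V]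
    (A B C : V →ₗ[K] V) (φ : (V →ₗ[K] V) →ₗ[K] K) (h1 : φ LinearMap.id = 0) (hA : φ A = 0)
    (hB : φ B = 0) (hC : φ C = 0) (hBA : φ (B ∘ₗ A) = 0) (hAB : φ (A ∘ₗ B) ≠ 0) (q : K) :
    A ∘ₗ B - q • (B ∘ₗ A) ∉ Submodule.span K {LinearMap.id, A, B, C} := by
  intro h
  have hle : Submodule.span K {LinearMap.id, A, B, C} ≤ LinearMap.ker φ := by
    rw [Submodule.span_le]
    intro x hx
    simp only [Set.mem_insert_iff, Set.mem_singleton_iff] at hx
    rcases hx with rfl | rfl | rfl | rfl <;> simpa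
  have := hle h
  rw [LinearMap.mem_ker, map_sub, map_smul, hBA, smul_zero, sub_zero] at this
  exact hAB this

/-- The functional `s X_{01} - r X_{21}` on linear maps. -/
noncomputable def fnl (K : Type u) [Field K] (n : ℕ) (r s : K) (i0 i1 i2 : Fin n) :
    ((Fin n → K) →ₗ[K] (Fin n → K)) →ₗ[K] K where
  toFun X := s * LinearMap.toMatrix' X i0 i1 - r * LinearMap.toMatrix' X i2 i1
  map_add' X Y := by simp only [map_add, Matrix.add_apply]; ring
  map_smul' c X := by simp only [map_smul, Matrix.smul_apply, smul_eq_mul, RingHom.id_apply]; ring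

lemma fnl_toLin' (K : Type u) [Field K] (n : ℕ) (r s : K) (i0 i1 i2 : Fin n)
    (M : Matrix (Fin n) (Fin n) K) :
    fnl K n r s i0 i1 i2 (Matrix.toLin' M) = s * M i0 i1 - r * M i2 i1 := by
  simp only [fnl, LinearMap.coe_mk, AddHom.coe_mk, LinearMap.toMatrix'_toLin']

lemma notMem_int {K : Type u} [Field K] {n : ℕ} (A B C : Matrix (Fin n) (Fin n) ℤ) (r s : ℤ)
    (i0 i1 i2 : Fin n) (h1 : s * (1 : Matrix (Fin n) (Fin n) ℤ) i0 i1
      - r * (1 : Matrix (Fin n) (Fin n) ℤ) i2 i1 = 0)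
    (hA : s * A i0 i1 - r * A i2 i1 = 0) (hB : s * B i0 i1 - r * B i2 i1 = 0)
    (hC : s * C i0 i1 - r * C i2 i1 = 0)
    (hBA : s * (B * A) i0 i1 - r * (B * A) i2 i1 = 0)
    (hAB : ((s * (A * B) i0 i1 - r * (A * B) i2 i1 : ℤ) : K) ≠ 0) (q : K) :
    Matrix.toLin' (A.map (Int.cast : ℤ → K)) ∘ₗ Matrix.toLin' (B.map (Int.cast : ℤ → K))
      - q • (Matrix.toLin' (B.map (Int.cast : ℤ → K)) ∘ₗ Matrix.toLin' (A.map (Int.cast : ℤ → K)))
      ∉ Submodule.span K {LinearMap.id, Matrix.toLin' (A.map (Int.cast : ℤ → K)),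
        Matrix.toLin' (B.map (Int.cast : ℤ → K)), Matrix.toLin' (C.map (Int.cast : ℤ → K))} := by
  have cast_mul : ∀ X Y : Matrix (Fin n) (Fin n) ℤ, X.map (Int.cast : ℤ → K)
      * Y.map (Int.cast : ℤ → K) = (X * Y).map (Int.cast : ℤ → K) := by
    intro X Y
    exact (Matrix.map_mul (f := Int.castRingHom K)).symm
  have key : ∀ X : Matrix (Fin n) (Fin n) ℤ,
      fnl K n (r : K) (s : K) i0 i1 i2 (Matrix.toLin' (X.map (Int.cast : ℤ → K)))
        = ((s * X i0 i1 - r * X i2 i1 : ℤ) : K) := by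
    intro X
    rw [fnl_toLin']
    simp
  apply notMem_of_functional _ _ _ (fnl K n (r : K) (s : K) i0 i1 i2)
  · have : (LinearMap.id : (Fin n → K) →ₗ[K] (Fin n → K))
        = Matrix.toLin' ((1 : Matrix (Fin n) (Fin n) ℤ).map (Int.cast : ℤ → K)) := by
      rw [Matrix.map_one _ Int.cast_zero Int.cast_one, Matrix.toLin'_one]
    rw [this, key, h1, Int.cast_zero]
  · rw [key, hA, Int.cast_zero]
  · rw [key, hB, Int.cast_zero]
  · rw [key, hC, Int.cast_zero]
  · rw [← Matrix.toLin'_mul, cast_mul, key, hBA, Int.cast_zero]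
  · rw [← Matrix.toLin'_mul, cast_mul, key]
    exact hAB

lemma ne_zero_of_dvd {K : Type u} [Field K] (h : (210 : K) ≠ 0) (z : ℤ)
    (hz : z ∣ 210 ^ 8) : (z : K) ≠ 0 := by
  obtain ⟨w, hw⟩ := hz
  intro hz0
  have h2 : ((z * w : ℤ) : K) = ((210 ^ 8 : ℤ) : K) := by rw [hw]
  rw [Int.cast_mul, hz0, zero_mul, Int.cast_pow, Int.cast_ofNat] at h2
  exact pow_ne_zero 8 h h2.symm

lemma irred_of_int {K : Type u} [Field K] (h : (210 : K) ≠ 0) {n : ℕ}
    (M : Matrix (Fin n) (Fin n) ℤ)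
    (h1 : ∀ i j : Fin n, (i : ℕ) + 1 < j ∨ (j : ℕ) + 1 < i → M i j = 0)
    (h2 : ∀ i j : Fin n, (i : ℕ) + 1 = j → M i j ∣ 210 ^ 8 ∧ M j i ∣ 210 ^ 8) :
    IsIrredTridiagonal (M.map (Int.cast : ℤ → K)) := by
  refine ⟨fun i j hij => ?_, fun i j hij => ⟨?_, ?_⟩⟩
  · rw [Matrix.map_apply, h1 i j hij, Int.cast_zero]
  · rw [Matrix.map_apply]
    exact ne_zero_of_dvd h _ (h2 i j hij).1
  · rw [Matrix.map_apply]
    exact ne_zero_of_dvd h _ (h2 i j hij).2

/-- Over every field in which 210 is nonzero, there are in dimensions 3 and 4 Leonard triples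
`A, B, C` such that for no scalar `q` is `A B - q B A` in the span of `I, A, B, C`. -/
theorem result (K : Type u) [Field K] (h : (210 : K) ≠ 0) (n : ℕ) (hn : n = 3 ∨ n = 4) :
    ∃ A B C : (Fin n → K) →ₗ[K] (Fin n → K), IsLeonardTriple A B C ∧
      ∀ q : K, A ∘ₗ B - q • (B ∘ₗ A) ∉ Submodule.span K {LinearMap.id, A, B, C} := by
  rcases hn with rfl | rfl
  · refine ⟨Matrix.toLin' ((!![18, 0, 0; 0, 6, 0; 0, 0, 0] : Matrix _ _ ℤ).map Int.cast),
      Matrix.toLin' ((!![3, 5, 0; 3, 9, 12; 0, 4, 12] : Matrix _ _ ℤ).map Int.cast),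
      Matrix.toLin' ((!![3, -5, 0; -3, 9, -12; 0, -4, 12] : Matrix _ _ ℤ).map Int.cast), ?_, ?_⟩
    · apply leonard_of_int _ _ _ !![1, -5, 10; 3, -3, -6; 2, 2, 2]
        !![1, 5, 10; -3, -3, 6; 2, -2, 2] 36
      · exact ne_zero_of_dvd h _ (by decide)
      · decide
      · decide
      · intro i j
        fin_cases i <;> fin_cases j <;> decide
      · exact irred_of_int h _ (by intro i j; fin_cases i <;> fin_cases j <;> decide)
          (by intro i j; fin_cases i <;> fin_cases j <;> decide)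
      · exact irred_of_int h _ (by intro i j; fin_cases i <;> fin_cases j <;> decide)
          (by intro i j; fin_cases i <;> fin_cases j <;> decide)
      all_goals decide
    · intro q
      apply notMem_int _ _ _ 5 4 0 1 2
      · decide
      · decide
      · decide
      · decide
      · decide
      · exact ne_zero_of_dvd h _ (by decide)
  · refine ⟨Matrix.toLin' ((!![120, 0, 0, 0; 0, 60, 0, 0; 0, 0, 20, 0; 0, 0, 0, 0] :
        Matrix _ _ ℤ).map Int.cast),
      Matrix.toLin' ((!![15, 21, 0, 0; 15, 45, 40, 0; 0, 24, 65, 75; 0, 0, 25, 75] :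
        Matrix _ _ ℤ).map Int.cast),
      Matrix.toLin' ((!![15, -21, 0, 0; -15, 45, -40, 0; 0, -24, 65, -75; 0, 0, -25, 75] :
        Matrix _ _ ℤ).map Int.cast), ?_, ?_⟩
    · apply leonard_of_int _ _ _ !![1, -7, 21, -35; 5, -15, 5, 25; 9, -3, -11, -15; 5, 5, 5, 5]
        !![1, 7, 21, 35; -5, -15, -5, 25; 9, 3, -11, 15; -5, 5, -5, 5] 400
      · exact ne_zero_of_dvd h _ (by decide)
      · decide
      · decide
      · intro i j
        fin_cases i <;> fin_cases j <;> decide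
      · exact irred_of_int h _ (by intro i j; fin_cases i <;> fin_cases j <;> decide)
          (by intro i j; fin_cases i <;> fin_cases j <;> decide)
      · exact irred_of_int h _ (by intro i j; fin_cases i <;> fin_cases j <;> decide)
          (by intro i j; fin_cases i <;> fin_cases j <;> decide)
      all_goals decide
    · intro q
      apply notMem_int _ _ _ 21 24 0 1 2
      · decide
      · decide
      · decide
      · decide
      · decide
      · exact ne_zero_of_dvd h _ (by decide)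

end Pool.Agent.Results.MP_4722b0_al.RacahTriple
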